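import Mathlib
import Pool.Agent.H47.WT.Defs
import Pool.Agent.H47.WT.Defs2

set_option autoImplicit false

namespace Pool.Agent.H47.WT

theorem small_use {G : Type} [Group G] (hG : LocallySmall G) (K : Type) [Group K] (ι : K →* G)
    (hι : Function.Injective ι) (hfg : Group.FG K) (htf : ∀ g : K, IsOfFinOrder g → g = 1)
    (hat : Atoroidal K) : ∃ F : Subgroup K, F.index ≠ 0 ∧ IsFreeGroup F := by
  have e : K ≃* ι.range := MonoidHom.ofInjective hι
  have h1 : ι.range.FG := (Group.fg_iff_subgroup_fg _).1 (Group.fg_range ι)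
  have h2 : ∀ g ∈ ι.range, IsOfFinOrder g → g = 1 := by
    rintro _ ⟨k, rfl⟩ hk
    rw [htf k (hι.isOfFinOrder_iff.1 hk), map_one]
  have h3 : Atoroidal ι.range := by
    rintro ⟨f, hf⟩
    exact hat ⟨e.symm.toMonoidHom.comp f, e.symm.injective.comp hf⟩
  obtain ⟨F, hF, hi, hfree⟩ := hG ι.range h1 h2 h3
  refine ⟨F.comap ι, ?_, ?_⟩
  · rw [Subgroup.index_comap]; exact hi
  · have hm : (F.comap ι).map ι = F := Subgroup.map_comap_eq_self hF
    have e2 : F.comap ι ≃* (F.comap ι).map ι := (F.comap ι).equivMapOfInjective ι hι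
    rw [hm] at e2
    exact IsFreeGroup.ofMulEquiv e2.symm

theorem small_mk {G : Type} [Group G]
    (h : ∀ K : Subgroup G, Group.FG K → (∀ g : K, IsOfFinOrder g → g = 1) → Atoroidal K →
      ∃ F : Subgroup K, F.index ≠ 0 ∧ IsFreeGroup F) : LocallySmall G := by
  intro K hfg htf hat
  obtain ⟨F, hi, hfree⟩ := h K ((Group.fg_iff_subgroup_fg K).2 hfg) (by
    intro g hg
    have := htf g g.2 (K.subtype_injective.isOfFinOrder_iff.2 hg)
    exact Subtype.ext this) hat
  refine ⟨F.map K.subtype, Subgroup.map_subtype_le F, ?_, ?_⟩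
  · rw [Subgroup.relIndex, Subgroup.subgroupOf,
      Subgroup.comap_map_eq_self_of_injective K.subtype_injective]
    exact hi
  · have e2 : F ≃* F.map K.subtype := F.equivMapOfInjective K.subtype K.subtype_injective
    exact IsFreeGroup.ofMulEquiv e2

/-- N5 -/
theorem small_hom {G Q : Type} [Group G] [Group Q] (φ : G →* Q)
    (hφ : ∀ g : G, φ g = 1 → IsOfFinOrder g) (hQ : LocallySmall Q) : LocallySmall G := by
  apply small_mk
  intro K hfg htf hat
  refine small_use hQ K (φ.comp K.subtype) ?_ hfg htf hat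
  rw [injective_iff_map_eq_one]
  intro k hk
  have h1 : IsOfFinOrder (k : G) := hφ k hk
  exact htf k (K.subtype_injective.isOfFinOrder_iff.1 h1)

theorem small_prod {G Q : Type} [Group G] [Group Q] (hG : LocallySmall G) (hQ : LocallySmall Q) :
    LocallySmall (G × Q) := by
  apply small_mk
  intro K hfg htf hat
  by_cases h1 : Function.Injective ((MonoidHom.fst G Q).comp K.subtype)
  · exact small_use hG K _ h1 hfg htf hat
  by_cases h2 : Function.Injective ((MonoidHom.snd G Q).comp K.subtype)
  · exact small_use hQ K _ h2 hfg htf hat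
  exfalso
  rw [injective_iff_map_eq_one] at h1 h2
  push Not at h1 h2
  obtain ⟨a, ha, ha1⟩ := h1
  obtain ⟨b, hb, hb1⟩ := h2
  have ha' : (a : G × Q).1 = 1 := ha
  have hb' : (b : G × Q).2 = 1 := hb
  have hcomm : Commute a b := by
    apply Subtype.ext
    apply Prod.ext
    · show (a : G × Q).1 * (b : G × Q).1 = (b : G × Q).1 * (a : G × Q).1
      rw [ha', one_mul, mul_one]
    · show (a : G × Q).2 * (b : G × Q).2 = (b : G × Q).2 * (a : G × Q).2
      rw [hb', one_mul, mul_one]
  have htf' : ∀ (g : K), g ≠ 1 → ∀ i : ℤ, g ^ i = 1 → i = 0 := by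
    intro g hg i hi
    by_contra hne
    exact hg (htf g (isOfFinOrder_iff_zpow_eq_one.2 ⟨i, hne, hi⟩))
  apply hat
  let f : Multiplicative (ℤ × ℤ) →* K := MonoidHom.mk'
    (fun p => a ^ (Multiplicative.toAdd p).1 * b ^ (Multiplicative.toAdd p).2) (by
      intro p q
      simp only [toAdd_mul, Prod.fst_add, Prod.snd_add, zpow_add]
      have hc : Commute (a ^ (Multiplicative.toAdd q).1) (b ^ (Multiplicative.toAdd p).2) :=
        (hcomm.zpow_left _).zpow_right _
      calc a ^ (Multiplicative.toAdd p).1 * a ^ (Multiplicative.toAdd q).1 *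
            (b ^ (Multiplicative.toAdd p).2 * b ^ (Multiplicative.toAdd q).2)
          = a ^ (Multiplicative.toAdd p).1 * (a ^ (Multiplicative.toAdd q).1 *
            b ^ (Multiplicative.toAdd p).2) * b ^ (Multiplicative.toAdd q).2 := by
            simp only [mul_assoc]
        _ = a ^ (Multiplicative.toAdd p).1 * (b ^ (Multiplicative.toAdd p).2 *
            a ^ (Multiplicative.toAdd q).1) * b ^ (Multiplicative.toAdd q).2 := by
            rw [hc.eq]
        _ = _ := by simp only [mul_assoc])
  refine ⟨f, ?_⟩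
  rw [injective_iff_map_eq_one]
  intro p hp
  have hp' : a ^ (Multiplicative.toAdd p).1 * b ^ (Multiplicative.toAdd p).2 = 1 := hp
  have e1 : ((a : G × Q) ^ (Multiplicative.toAdd p).1 * (b : G × Q) ^ (Multiplicative.toAdd p).2) = 1 := by
    have := congrArg (Subtype.val) hp'
    simpa using this
  have e2 : (a : G × Q).2 ^ (Multiplicative.toAdd p).1 = 1 := by
    have := congrArg Prod.snd e1
    simpa [hb'] using this
  have e3 : a ^ (Multiplicative.toAdd p).1 = 1 := by
    apply Subtype.ext
    apply Prod.ext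
    · simp [ha']
    · simpa using e2
  have i1 := htf' a ha1 _ e3
  have e4 : b ^ (Multiplicative.toAdd p).2 = 1 := by
    rw [e3, one_mul] at hp'; exact hp'
  have i2 := htf' b hb1 _ e4
  have : Multiplicative.toAdd p = 0 := Prod.ext i1 i2
  exact toAdd_eq_zero.1 this

theorem small_fi {G : Type} [Group G] (G₀ : Subgroup G) (hfi : G₀.index ≠ 0)
    (hG : LocallySmall G₀) : LocallySmall G := by
  apply small_mk
  intro K hfg htf hat
  have : G₀.FiniteIndex := ⟨hfi⟩
  let K₀ : Subgroup K := G₀.subgroupOf K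
  have : K₀.FiniteIndex := Subgroup.instFiniteIndex_subgroupOf G₀ K
  have := hfg
  have hfg0 : Group.FG K₀ := Subgroup.fg_of_index_ne_zero K₀
  let ι : K₀ →* G₀ :=
    { toFun := fun k => ⟨((k : K) : G), k.2⟩
      map_one' := rfl
      map_mul' := fun _ _ => rfl }
  have hι : Function.Injective ι := by
    intro k k' h
    have h1 : ((ι k : G₀) : G) = ((ι k' : G₀) : G) := by rw [h]
    exact Subtype.ext (Subtype.ext h1)
  obtain ⟨F, hi, hfree⟩ := small_use hG K₀ ι hι hfg0 (by
      intro g hg
      have h1 : (g : K) = 1 := htf g (K₀.subtype_injective.isOfFinOrder_iff.2 hg)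
      exact Subtype.ext h1) (by
      rintro ⟨f, hf⟩
      exact hat ⟨K₀.subtype.comp f, K₀.subtype_injective.comp hf⟩)
  refine ⟨F.map K₀.subtype, ?_, ?_⟩
  · rw [Subgroup.index_map_subtype]
    exact mul_ne_zero hi Subgroup.FiniteIndex.index_ne_zero
  · have e2 : F ≃* F.map K₀.subtype := F.equivMapOfInjective K₀.subtype K₀.subtype_injective
    exact IsFreeGroup.ofMulEquiv e2

theorem small_local {G : Type} [Group G] (h : ∀ K : Subgroup G, K.FG → LocallySmall K) :
    LocallySmall G := by
  apply small_mk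
  intro K hfg htf hat
  exact small_use (h K ((Group.fg_iff_subgroup_fg K).1 hfg)) K (MonoidHom.id K)
    Function.injective_id hfg htf hat

theorem small_free {G : Type} [Group G] [IsFreeGroup G] : LocallySmall G := by
  intro K _ _ _
  exact ⟨K, le_refl K, by rw [Subgroup.relIndex_self]; exact one_ne_zero, inferInstance⟩

/-- Closed under subgroups. -/
theorem small_sub {G : Type} [Group G] (hG : LocallySmall G) (G₀ : Subgroup G) :
    LocallySmall G₀ :=
  small_hom G₀.subtype (fun g hg => by
    have : g = 1 := (injective_iff_map_eq_one G₀.subtype).1 G₀.subtype_injective g hg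
    rw [this]; exact IsOfFinOrder.one) hG

/-- Invariant under isomorphism. -/
theorem small_equiv {G Q : Type} [Group G] [Group Q] (e : G ≃* Q) (hQ : LocallySmall Q) :
    LocallySmall G :=
  small_hom e.toMonoidHom (fun g hg => by
    have : g = 1 := (injective_iff_map_eq_one e.toMonoidHom).1 e.injective g hg
    rw [this]; exact IsOfFinOrder.one) hQ

end Pool.Agent.H47.WT
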